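import Pool.Agent.H25.MF.Targets
import Pool.Agent.H34.DZ.G

/-!
# MP_118735_nt, row GR: reflection of `1/(s ζ(s))` near the critical line
-/

set_option autoImplicit false

open Complex Pool.Agent.H25.MF Pool.Agent.H23.DZ

namespace Pool.Agent.H52.MF

theorem norm_Gammaℝ_conj (s : ℂ) : ‖Gammaℝ ((starRingEnd ℂ) s)‖ = ‖Gammaℝ s‖ := by
  rw [Gammaℝ_def, Gammaℝ_def, norm_mul, norm_mul,
    norm_cpow_eq_rpow_re_of_pos Real.pi_pos, norm_cpow_eq_rpow_re_of_pos Real.pi_pos]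
  have h1 : (starRingEnd ℂ) s / 2 = (starRingEnd ℂ) (s / 2) := by
    rw [map_div₀]
    congr 1
    exact (Complex.conj_ofNat 2).symm
  rw [h1, Complex.Gamma_conj, Complex.norm_conj]
  congr 2
  simp

theorem Gammaℝ_ne {s : ℂ} (h0 : s ≠ 0) (hs : -(1 / 4) ≤ s.re) : Gammaℝ s ≠ 0 := by
  intro h
  obtain ⟨n, hn⟩ := Gammaℝ_eq_zero_iff.1 h
  rcases Nat.eq_zero_or_pos n with h2 | h2
  · rw [h2] at hn
    simp at hn
    exact h0 hn
  · have h3 : s.re = -(2 * (n : ℝ)) := by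
      rw [hn]
      simp
    have h4 : (1 : ℝ) ≤ n := by exact_mod_cast h2
    linarith

theorem fe {s : ℂ} (h0 : s ≠ 0) (h1 : s ≠ 1) (hG : Gammaℝ s ≠ 0) (hG' : Gammaℝ (1 - s) ≠ 0) :
    (riemannZeta s)⁻¹ = Gammaℝ s * (Gammaℝ (1 - s))⁻¹ * (riemannZeta (1 - s))⁻¹ := by
  have h1' : 1 - s ≠ 0 := sub_ne_zero.2 h1.symm
  rw [riemannZeta_def_of_ne_zero h0, riemannZeta_def_of_ne_zero h1',
    completedRiemannZeta_one_sub]
  by_cases hL : completedRiemannZeta s = 0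
  · simp [hL]
  · field_simp

theorem iz_refl {s : ℂ} (h0 : s ≠ 0) (h1 : s ≠ 1) (hG : Gammaℝ s ≠ 0)
    (hG' : Gammaℝ (1 - s) ≠ 0) : ‖iz s / s‖ =
      ‖Gammaℝ s‖ * ‖Gammaℝ (1 - s)‖⁻¹ * (‖1 - s‖ / ‖s‖) * ‖iz (1 - s) / (1 - s)‖ := by
  have h1' : 1 - s ≠ 0 := sub_ne_zero.2 h1.symm
  have h0' : (1 : ℂ) - s ≠ 1 := by
    intro h
    apply h0
    linear_combination -h
  unfold iz
  rw [if_neg h1, if_neg h0', fe h0 h1 hG hG', norm_div, norm_div, norm_mul, norm_mul, norm_inv,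
    norm_inv]
  have a1 : ‖s‖ ≠ 0 := norm_ne_zero_iff.2 h0
  have a2 : ‖1 - s‖ ≠ 0 := norm_ne_zero_iff.2 h1'
  field_simp

theorem pow_bound {C x t : ℝ} (hC : 1 ≤ C) (hx : x ≤ 1) (σ : ℝ) (hσ : 0 ≤ σ)
    (hσ2 : σ ≤ 3 / 2) : C * (1 + ‖(σ : ℂ) + t * I‖) ^ x ≤ C * (5 / 2) * (1 + |t|) := by
  have h1 : ‖(σ : ℂ) + t * I‖ ≤ σ + |t| := by
    refine (norm_add_le _ _).trans ?_
    rw [Complex.norm_real, norm_mul, Complex.norm_real, Complex.norm_I, mul_one,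
      Real.norm_of_nonneg hσ, Real.norm_eq_abs]
  have h2 : (1 : ℝ) ≤ 1 + ‖(σ : ℂ) + t * I‖ := by
    have := norm_nonneg ((σ : ℂ) + t * I)
    linarith
  have h3 : (1 + ‖(σ : ℂ) + t * I‖) ^ x ≤ 1 + ‖(σ : ℂ) + t * I‖ := by
    calc (1 + ‖(σ : ℂ) + t * I‖) ^ x ≤ (1 + ‖(σ : ℂ) + t * I‖) ^ (1 : ℝ) :=
          Real.rpow_le_rpow_of_exponent_le h2 hx
      _ = _ := Real.rpow_one _
  have h4 : 1 + ‖(σ : ℂ) + t * I‖ ≤ 5 / 2 * (1 + |t|) := by
    have := abs_nonneg t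
    linarith
  rw [mul_assoc]
  exact mul_le_mul_of_nonneg_left (h3.trans h4) (by linarith)

/-- row GR -/
theorem pf_GR : T_GR := by
  obtain ⟨C, hC, H⟩ := Pool.Agent.H34.DZ.g1 1
  have hpi := Real.pi_pos
  refine ⟨16 * Real.pi * (C * (5 / 2)) * 9, 1, fun s hs1 hs2 hs3 => ?_, fun s hs1 hs2 hs3 => ?_⟩
  · have h0 : s ≠ 0 := by
      rintro rfl
      rw [norm_zero] at hs3
      linarith
    have h1 : s ≠ 1 := by
      rintro rfl
      simp at hs2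
      linarith
    have h1' : 1 - s ≠ 0 := sub_ne_zero.2 h1.symm
    have hG := Gammaℝ_ne h0 hs1
    have hG' : Gammaℝ (1 - s) ≠ 0 := Gammaℝ_ne h1' (by simp; linarith)
    rw [iz_refl h0 h1 hG hG', pow_one]
    have hw : ‖1 - s‖ / ‖s‖ ≤ 9 := by
      have a1 : 0 < ‖s‖ := norm_pos_iff.2 h0
      rw [div_le_iff₀ a1]
      have := norm_sub_le (1 : ℂ) s
      rw [norm_one] at this
      linarith
    have hr := H (1 / 2 + s.re) (((3 / 2 : ℝ) : ℂ) + s.im * I) (by linarith) (by linarith)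
      (by simp; norm_num)
    have e1 : ((3 / 2 : ℝ) : ℂ) + s.im * I + ((1 / 2 + s.re : ℝ) : ℂ) = s + 2 := by
      apply Complex.ext <;> simp <;> ring
    have e2 : ((3 / 2 : ℝ) : ℂ) + s.im * I - ((1 / 2 + s.re : ℝ) : ℂ) =
        (starRingEnd ℂ) (1 - s) := by
      apply Complex.ext <;> simp <;> ring
    unfold ratio at hr
    rw [e1, e2, norm_mul, norm_inv, norm_Gammaℝ_conj, Gammaℝ_add_two h0, norm_div, norm_div,
      norm_mul] at hr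
    have e3 : ‖(Real.pi : ℂ)‖ = Real.pi := by
      rw [Complex.norm_real, Real.norm_of_nonneg hpi.le]
    have e4 : ‖(2 : ℂ)‖ = 2 := by norm_num
    rw [e3, e4] at hr
    have hb := pow_bound (x := 1 / 2 + s.re) (t := s.im) hC (by linarith) (3 / 2) (by norm_num)
      (by norm_num)
    have hg : ‖Gammaℝ s‖ * ‖Gammaℝ (1 - s)‖⁻¹ ≤
        16 * Real.pi * (C * (5 / 2)) * (1 + |s.im|) := by
      have a2 : ‖Gammaℝ s‖ * ‖s‖ / 2 / Real.pi * ‖Gammaℝ (1 - s)‖⁻¹ ≤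
          C * (5 / 2) * (1 + |s.im|) := hr.trans hb
      have a3 : ‖Gammaℝ s‖ * ‖Gammaℝ (1 - s)‖⁻¹ * ‖s‖ ≤
          2 * Real.pi * (C * (5 / 2) * (1 + |s.im|)) := by
        have : ‖Gammaℝ s‖ * ‖Gammaℝ (1 - s)‖⁻¹ * ‖s‖ = 2 * Real.pi *
            (‖Gammaℝ s‖ * ‖s‖ / 2 / Real.pi * ‖Gammaℝ (1 - s)‖⁻¹) := by
          field_simp
        rw [this]
        exact mul_le_mul_of_nonneg_left a2 (by positivity)
      have a4 : 0 ≤ ‖Gammaℝ s‖ * ‖Gammaℝ (1 - s)‖⁻¹ := by positivity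
      nlinarith
    have hn := norm_nonneg (iz (1 - s) / (1 - s))
    have hd : 0 ≤ ‖1 - s‖ / ‖s‖ := by positivity
    have hg0 : 0 ≤ 16 * Real.pi * (C * (5 / 2)) * (1 + |s.im|) := by positivity
    calc ‖Gammaℝ s‖ * ‖Gammaℝ (1 - s)‖⁻¹ * (‖1 - s‖ / ‖s‖) * ‖iz (1 - s) / (1 - s)‖
        ≤ 16 * Real.pi * (C * (5 / 2)) * (1 + |s.im|) * 9 * ‖iz (1 - s) / (1 - s)‖ := by
          refine mul_le_mul_of_nonneg_right ?_ hn
          exact mul_le_mul hg hw hd hg0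
      _ = _ := by ring
  · have h1 : s ≠ 1 := by
      rintro rfl
      simp at hs3
      linarith
    have h0 : s ≠ 0 := by
      rintro rfl
      simp at hs1
      linarith
    have h1' : 1 - s ≠ 0 := sub_ne_zero.2 h1.symm
    have hG := Gammaℝ_ne h0 (by linarith)
    have hG' : Gammaℝ (1 - s) ≠ 0 := Gammaℝ_ne h1' (by simp; linarith)
    rw [iz_refl h0 h1 hG hG', pow_one]
    have hw : ‖1 - s‖ / ‖s‖ ≤ 9 := by
      have a1 : 0 < ‖s‖ := norm_pos_iff.2 h0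
      rw [div_le_iff₀ a1]
      have := norm_sub_le (1 : ℂ) s
      rw [norm_one] at this
      have a2 : s.re ≤ ‖s‖ := Complex.re_le_norm s
      linarith
    have hr := H (s.re - 1 / 2) (((1 / 2 : ℝ) : ℂ) + s.im * I) (by linarith) (by linarith)
      (by simp)
    have e1 : ((1 / 2 : ℝ) : ℂ) + s.im * I + ((s.re - 1 / 2 : ℝ) : ℂ) = s := by
      apply Complex.ext <;> simp
    have e2 : ((1 / 2 : ℝ) : ℂ) + s.im * I - ((s.re - 1 / 2 : ℝ) : ℂ) =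
        (starRingEnd ℂ) (1 - s) := by
      apply Complex.ext <;> simp <;> ring
    unfold ratio at hr
    rw [e1, e2, norm_mul, norm_inv, norm_Gammaℝ_conj] at hr
    have hb := pow_bound (x := s.re - 1 / 2) (t := s.im) hC (by linarith) (1 / 2) (by norm_num)
      (by norm_num)
    have hg : ‖Gammaℝ s‖ * ‖Gammaℝ (1 - s)‖⁻¹ ≤
        16 * Real.pi * (C * (5 / 2)) * (1 + |s.im|) := by
      refine (hr.trans hb).trans ?_
      have a5 : 0 ≤ C * (5 / 2) * (1 + |s.im|) := by positivity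
      have a6 : 1 ≤ 16 * Real.pi := by
        have := Real.pi_gt_three
        linarith
      nlinarith
    have hn := norm_nonneg (iz (1 - s) / (1 - s))
    have hd : 0 ≤ ‖1 - s‖ / ‖s‖ := by positivity
    have hg0 : 0 ≤ 16 * Real.pi * (C * (5 / 2)) * (1 + |s.im|) := by positivity
    calc ‖Gammaℝ s‖ * ‖Gammaℝ (1 - s)‖⁻¹ * (‖1 - s‖ / ‖s‖) * ‖iz (1 - s) / (1 - s)‖
        ≤ 16 * Real.pi * (C * (5 / 2)) * (1 + |s.im|) * 9 * ‖iz (1 - s) / (1 - s)‖ := by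
          refine mul_le_mul_of_nonneg_right ?_ hn
          exact mul_le_mul hg hw hd hg0
      _ = _ := by ring

end Pool.Agent.H52.MF
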