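import Pool.Agent.H25.MF.Targets

/-!
# MP_118735_nt, row RN: the zeta function has no real zeros to the right of `-1/2`

For `0 < σ < 1` we use `(s - 1) ζ(s) = s - s (s - 1) G(s)`, `G(s) = ∫_1^∞ {t} t^(-s-1) dt`.
-/

set_option autoImplicit false

open Complex MeasureTheory Filter Topology Asymptotics Set Pool.Agent.H25.MF

namespace Pool.Agent.H52.MF

/-- the fractional part, cut off at `1` -/
noncomputable def fr (t : ℝ) : ℂ := (Ioi (1 : ℝ)).indicator (fun t => ((Int.fract t : ℝ) : ℂ)) t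

theorem fr_meas : Measurable fr :=
  (Complex.measurable_ofReal.comp measurable_fract).indicator measurableSet_Ioi

theorem norm_fr_le (t : ℝ) : ‖fr t‖ ≤ 1 := by
  unfold fr
  by_cases h : t ∈ Ioi (1 : ℝ)
  · rw [indicator_of_mem h, Complex.norm_real, Real.norm_of_nonneg (Int.fract_nonneg t)]
    exact (Int.fract_lt_one t).le
  · rw [indicator_of_notMem h, norm_zero]
    exact zero_le_one

theorem fr_loc : LocallyIntegrableOn fr (Ioi 0) :=
  ((locallyIntegrable_const (1 : ℝ)).mono fr_meas.aestronglyMeasurable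
    (Eventually.of_forall fun t => by rw [norm_one]; exact norm_fr_le t)).locallyIntegrableOn _

theorem fr_top : fr =O[atTop] fun x : ℝ => x ^ (-(0 : ℝ)) := by
  refine IsBigO.of_bound 1 (Eventually.of_forall fun t => ?_)
  rw [neg_zero, Real.rpow_zero, norm_one, mul_one]
  exact norm_fr_le t

theorem fr_bot (b : ℝ) : fr =O[𝓝[>] 0] fun x : ℝ => x ^ (-b) := by
  have h : fr =ᶠ[𝓝[>] 0] fun _ => (0 : ℂ) := by
    filter_upwards [Ioo_mem_nhdsGT (show (0 : ℝ) < 1 by norm_num)] with t ht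
    unfold fr
    exact indicator_of_notMem (fun h => absurd (mem_Ioi.1 h) (not_lt.2 ht.2.le)) _
  exact h.trans_isBigO (isBigO_zero _ _)

/-- the integral of the fractional part -/
noncomputable def Gf (s : ℂ) : ℂ := mellin fr (-s)

theorem Gf_diff {s : ℂ} (hs : 0 < s.re) : DifferentiableAt ℂ Gf s := by
  have h1 : DifferentiableAt ℂ (mellin fr) (-s) :=
    mellin_differentiableAt_of_isBigO_rpow fr_loc fr_top (by simpa using hs)
      (fr_bot (-s.re - 1)) (by simp)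
  exact DifferentiableAt.comp s h1 differentiableAt_id.neg

theorem fr_conv {s : ℂ} (hs : 0 < s.re) : MellinConvergent fr (-s) :=
  mellinConvergent_of_isBigO_rpow fr_loc fr_top (by simpa using hs)
    (fr_bot (-s.re - 1)) (by simp)

theorem ind_eq (s : ℂ) : (fun t : ℝ => (t : ℂ) ^ (-s - 1) • fr t) =
    (Ioi (1 : ℝ)).indicator fun t : ℝ => ((Int.fract t : ℝ) : ℂ) * (t : ℂ) ^ (-(s + 1)) := by
  funext t
  have e : -s - 1 = -(s + 1) := by ring
  unfold fr
  by_cases h : t ∈ Ioi (1 : ℝ)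
  · rw [indicator_of_mem h, indicator_of_mem h, e, smul_eq_mul, mul_comm]
  · rw [indicator_of_notMem h, indicator_of_notMem h, smul_zero]

theorem Gf_eq (s : ℂ) : Gf s =
    ∫ t in Ioi (1 : ℝ), ((Int.fract t : ℝ) : ℂ) * (t : ℂ) ^ (-(s + 1)) := by
  unfold Gf mellin
  rw [ind_eq, setIntegral_indicator measurableSet_Ioi]
  congr 2
  rw [Ioi_inter_Ioi]
  norm_num

theorem fract_int {s : ℂ} (hs : 0 < s.re) :
    IntegrableOn (fun t : ℝ => ((Int.fract t : ℝ) : ℂ) * (t : ℂ) ^ (-(s + 1))) (Ioi 1) := by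
  have h := fr_conv hs
  unfold MellinConvergent at h
  rw [ind_eq] at h
  have h2 : IntegrableOn ((Ioi (1 : ℝ)).indicator fun t : ℝ =>
      ((Int.fract t : ℝ) : ℂ) * (t : ℂ) ^ (-(s + 1))) (Ioi 1) :=
    h.mono_set (Ioi_subset_Ioi (by norm_num))
  exact h2.congr_fun (fun t ht => indicator_of_mem ht _) measurableSet_Ioi

theorem zeta_eq {s : ℂ} (hs : 1 < s.re) : riemannZeta s = s / (s - 1) - s * Gf s := by
  have hO : (fun n : ℕ => ∑ _k ∈ Finset.Icc 1 n, (1 : ℝ)) =O[atTop] fun n : ℕ =>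
      (n : ℝ) ^ (1 : ℝ) := by
    refine IsBigO.of_bound 1 (Eventually.of_forall fun n => ?_)
    simp
  have h1 := LSeries_eq_mul_integral_of_nonneg (fun _ => (1 : ℝ)) zero_le_one hs hO
    (fun _ => zero_le_one)
  have h2 : LSeries (fun _ : ℕ => ((1 : ℝ) : ℂ)) s = riemannZeta s := by
    rw [← LSeries_one_eq_riemannZeta hs]
    congr 1
  rw [h2] at h1
  have h3 : ∫ t in Ioi (1 : ℝ), (∑ _k ∈ Finset.Icc 1 ⌊t⌋₊, ((1 : ℝ) : ℂ)) *
      (t : ℂ) ^ (-(s + 1)) = ∫ t in Ioi (1 : ℝ), ((t : ℂ) ^ (-s) -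
        ((Int.fract t : ℝ) : ℂ) * (t : ℂ) ^ (-(s + 1))) := by
    refine setIntegral_congr_fun measurableSet_Ioi fun t ht => ?_
    have ht0 : (0 : ℝ) < t := lt_trans zero_lt_one ht
    have ht1 : (t : ℂ) ≠ 0 := by exact_mod_cast ht0.ne'
    have e1 : ((⌊t⌋₊ : ℕ) : ℂ) = (t : ℂ) - ((Int.fract t : ℝ) : ℂ) := by
      have : ((⌊t⌋₊ : ℕ) : ℝ) = t - Int.fract t := by
        rw [natCast_floor_eq_intCast_floor ht0.le, Int.self_sub_fract]
      exact_mod_cast congrArg (fun x : ℝ => (x : ℂ)) this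
    have e2 : (t : ℂ) * (t : ℂ) ^ (-(s + 1)) = (t : ℂ) ^ (-s) := by
      have e3 : -s = 1 + -(s + 1) := by ring
      rw [e3, Complex.cpow_add _ _ ht1, Complex.cpow_one]
    show (∑ _k ∈ Finset.Icc 1 ⌊t⌋₊, ((1 : ℝ) : ℂ)) * (t : ℂ) ^ (-(s + 1)) = _
    rw [Finset.sum_const, Nat.card_Icc, add_tsub_cancel_right, nsmul_eq_mul, Complex.ofReal_one,
      mul_one, e1, sub_mul, e2]
  have h4 : IntegrableOn (fun t : ℝ => (t : ℂ) ^ (-s)) (Ioi 1) :=
    integrableOn_Ioi_cpow_of_lt (by simpa using hs) zero_lt_one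
  have h5 : ∫ t in Ioi (1 : ℝ), (t : ℂ) ^ (-s) = 1 / (s - 1) := by
    rw [integral_Ioi_cpow_of_lt (by simpa using hs) zero_lt_one, Complex.ofReal_one,
      Complex.one_cpow]
    have : s - 1 ≠ 0 := by
      intro h
      rw [sub_eq_zero.1 h] at hs
      simp at hs
    have h6 : -s + 1 ≠ 0 := by
      intro h
      apply this
      linear_combination -h
    field_simp
    ring
  rw [h1, h3, integral_sub h4 (fract_int (by linarith)), h5, ← Gf_eq]
  ring

theorem zeta1_eq {s : ℂ} (hs : 0 < s.re) : riemannZeta₁ s = s - s * (s - 1) * Gf s := by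
  have hopen : IsOpen {s : ℂ | 0 < s.re} := isOpen_lt continuous_const Complex.continuous_re
  have hconv : IsPreconnected {s : ℂ | 0 < s.re} :=
    (convex_halfSpace_re_gt 0).isPreconnected
  have hf : AnalyticOnNhd ℂ riemannZeta₁ {s : ℂ | 0 < s.re} :=
    (differentiable_riemannZeta₁.differentiableOn).analyticOnNhd hopen
  have hg : AnalyticOnNhd ℂ (fun s : ℂ => s - s * (s - 1) * Gf s) {s : ℂ | 0 < s.re} := by
    refine DifferentiableOn.analyticOnNhd (fun z hz => ?_) hopen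
    have h1 := Gf_diff hz
    exact (differentiableAt_id.sub ((differentiableAt_id.mul
      (differentiableAt_id.sub_const 1)).mul h1)).differentiableWithinAt
  refine hf.eqOn_of_preconnected_of_eventuallyEq hg hconv (z₀ := 2) (by simp) ?_ hs
  have h2 : {s : ℂ | 1 < s.re} ∈ 𝓝 (2 : ℂ) :=
    (isOpen_lt continuous_const Complex.continuous_re).mem_nhds (by simp)
  filter_upwards [h2] with z hz
  have hz1 : z ≠ 1 := by
    rintro rfl
    simp at hz
  have h3 : z - 1 ≠ 0 := sub_ne_zero.2 hz1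
  have h4 := riemannZeta_eq_inv_sub_mul hz1
  rw [zeta_eq hz] at h4
  have h5 : riemannZeta₁ z = (z - 1) * ((z - 1)⁻¹ * riemannZeta₁ z) := by
    rw [← mul_assoc, mul_inv_cancel₀ h3, one_mul]
  rw [h5, ← h4]
  field_simp

theorem Gf_real (σ : ℝ) : ∃ r : ℝ, 0 ≤ r ∧ Gf (σ : ℂ) = (r : ℂ) := by
  refine ⟨∫ t in Ioi (1 : ℝ), Int.fract t * t ^ (-(σ + 1)), ?_, ?_⟩
  · refine setIntegral_nonneg measurableSet_Ioi fun t ht => ?_
    have ht0 : (0 : ℝ) < t := lt_trans zero_lt_one ht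
    exact mul_nonneg (Int.fract_nonneg t) (Real.rpow_nonneg ht0.le _)
  · rw [Gf_eq]
    have hof : ((∫ t in Ioi (1 : ℝ), Int.fract t * t ^ (-(σ + 1)) : ℝ) : ℂ) =
        ∫ t in Ioi (1 : ℝ), ((Int.fract t * t ^ (-(σ + 1)) : ℝ) : ℂ) := integral_ofReal.symm
    rw [hof]
    refine setIntegral_congr_fun measurableSet_Ioi fun t ht => ?_
    have ht0 : (0 : ℝ) < t := lt_trans zero_lt_one ht
    show ((Int.fract t : ℝ) : ℂ) * (t : ℂ) ^ (-((σ : ℂ) + 1)) =
      ((Int.fract t * t ^ (-(σ + 1)) : ℝ) : ℂ)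
    rw [Complex.ofReal_mul, Complex.ofReal_cpow ht0.le]
    push_cast
    rfl

theorem zeta_ne_mid {σ : ℝ} (h0 : 0 < σ) (h1 : σ < 1) : riemannZeta (σ : ℂ) ≠ 0 := by
  intro h
  have hs1 : (σ : ℂ) ≠ 1 := by exact_mod_cast h1.ne
  rw [riemannZeta_eq_inv_sub_mul hs1] at h
  have h2 : riemannZeta₁ (σ : ℂ) = 0 := by
    rcases mul_eq_zero.1 h with h3 | h3
    · exact absurd (inv_eq_zero.1 h3) (sub_ne_zero.2 hs1)
    · exact h3
  obtain ⟨r, hr, hG⟩ := Gf_real σ
  rw [zeta1_eq (by simpa using h0), hG] at h2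
  have h3 : σ - σ * (σ - 1) * r = 0 := by exact_mod_cast h2
  have h4 : 0 ≤ σ * (1 - σ) * r := mul_nonneg (mul_nonneg h0.le (by linarith)) hr
  linarith [h4, h3, h0, (by ring : σ * (1 - σ) * r = -(σ * (σ - 1) * r))]

theorem zeta_ne_neg {σ : ℝ} (h0 : -(1 / 2) < σ) (h1 : σ < 0) : riemannZeta (σ : ℂ) ≠ 0 := by
  have hs : ∀ n : ℕ, (1 - (σ : ℂ)) ≠ -n := by
    intro n h
    have h2 := congrArg Complex.re h
    simp at h2
    have : (0 : ℝ) ≤ n := Nat.cast_nonneg n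
    linarith
  have hs' : (1 - (σ : ℂ)) ≠ 1 := by
    intro h
    have h2 := congrArg Complex.re h
    simp at h2
    linarith
  have h3 := riemannZeta_one_sub hs hs'
  have e1 : (1 : ℂ) - (1 - (σ : ℂ)) = (σ : ℂ) := by ring
  rw [e1] at h3
  rw [h3]
  have hpi := Real.pi_pos
  have hz : riemannZeta (1 - (σ : ℂ)) ≠ 0 :=
    riemannZeta_ne_zero_of_one_le_re (by simp; linarith)
  have hG : Gamma (1 - (σ : ℂ)) ≠ 0 := Gamma_ne_zero_of_re_pos (by simp; linarith)
  have hp : (2 * (Real.pi : ℂ)) ^ (-(1 - (σ : ℂ))) ≠ 0 := by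
    have : (2 * (Real.pi : ℂ)) ≠ 0 := by
      have : (Real.pi : ℂ) ≠ 0 := by exact_mod_cast hpi.ne'
      exact mul_ne_zero two_ne_zero this
    rw [Complex.cpow_def_of_ne_zero this]
    exact Complex.exp_ne_zero _
  have hc : Complex.cos ((Real.pi : ℂ) * (1 - (σ : ℂ)) / 2) ≠ 0 := by
    have e2 : (Real.pi : ℂ) * (1 - (σ : ℂ)) / 2 = ((Real.pi * (1 - σ) / 2 : ℝ) : ℂ) := by
      push_cast
      ring
    rw [e2, ← Complex.ofReal_cos]
    have h4 : Real.cos (Real.pi * (1 - σ) / 2) < 0 := by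
      refine Real.cos_neg_of_pi_div_two_lt_of_lt ?_ ?_ <;> nlinarith
    exact_mod_cast h4.ne
  exact mul_ne_zero (mul_ne_zero (mul_ne_zero (mul_ne_zero two_ne_zero hp) hG) hc) hz

/-- row RN -/
theorem pf_RN : T_RN := by
  intro σ h0 h1
  rcases lt_trichotomy σ 0 with h | h | h
  · exact zeta_ne_neg h0 h
  · rw [h, Complex.ofReal_zero, riemannZeta_zero]
    norm_num
  · rcases lt_or_gt_of_ne h1 with h2 | h2
    · exact zeta_ne_mid h h2
    · exact riemannZeta_ne_zero_of_one_le_re (by simpa using h2.le)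

end Pool.Agent.H52.MF
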